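import Mathlib

namespace Pool.Agent.H.MP_8e06fd_an

/-- oscillation of `f` on `[0,1] ∩ [t - d, t + d]` -/
noncomputable def osc (f : C(unitInterval, ℝ)) (t : unitInterval) (d : ℝ) : ℝ :=
  sSup {r : ℝ | ∃ s u : unitInterval, |(s : ℝ) - t| ≤ d ∧ |(u : ℝ) - t| ≤ d ∧ r = |f s - f u|}

/-- the quantity `Γ_X(t)` -/
noncomputable def Gamma (X : Submodule ℝ C(unitInterval, ℝ)) (t : unitInterval) : ℝ :=
  sSup {a : ℝ | 0 ≤ a ∧ ∀ d : ℝ, 0 < d → ∃ f ∈ X, ‖f‖ = 1 ∧ a < osc f t d}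

/-- the oscillating spectrum -/
def Omega (X : Submodule ℝ C(unitInterval, ℝ)) : Set unitInterval := {t | 0 < Gamma X t}

end Pool.Agent.H.MP_8e06fd_an
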