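import Mathlib
import Pool.Agent.H.MP_8e06fd_an.Defs

namespace Pool.Agent.H.MP_8e06fd_an
open Set

abbrev II := unitInterval
abbrev CC := C(unitInterval, ℝ)

noncomputable def xx (j : ℕ) : ℝ := (1 / 2) ^ j

lemma xx_pos (j : ℕ) : 0 < xx j := by unfold xx; positivity

lemma xx_lt {i j : ℕ} (h : i < j) : xx j ≤ xx i / 2 := by
  unfold xx
  have : (1 / 2 : ℝ) ^ j ≤ (1 / 2) ^ (i + 1) :=
    pow_le_pow_of_le_one (by norm_num) (by norm_num) h
  rw [pow_succ] at this
  linarith

lemma xx_le {i j : ℕ} (h : i ≤ j) : xx j ≤ xx i := by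
  unfold xx
  exact pow_le_pow_of_le_one (by norm_num) (by norm_num) h

noncomputable def B (j : ℕ) (y : ℝ) : ℝ := max 0 (1 - 4 * |y / xx j - 1|)

lemma B_cont (j : ℕ) : Continuous (B j) := by unfold B; fun_prop

lemma B_nonneg (j : ℕ) (y : ℝ) : 0 ≤ B j y := le_max_left _ _

lemma B_le (j : ℕ) (y : ℝ) : B j y ≤ 1 := by
  unfold B
  have := abs_nonneg (y / xx j - 1)
  exact max_le (by norm_num) (by linarith)

lemma B_ne {j : ℕ} {y : ℝ} (h : B j y ≠ 0) : 3 / 4 * xx j < y ∧ y < 5 / 4 * xx j := by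
  have h1 : 0 < 1 - 4 * |y / xx j - 1| := by
    by_contra h2
    exact h (max_eq_left (not_lt.1 h2))
  have h2 : |y / xx j - 1| < 1 / 4 := by linarith
  rw [abs_lt] at h2
  have hx := xx_pos j
  constructor
  · have : 3 / 4 < y / xx j := by linarith
    rwa [lt_div_iff₀ hx] at this
  · have : y / xx j < 5 / 4 := by linarith
    rwa [div_lt_iff₀ hx] at this

lemma B_disj {i j : ℕ} {y : ℝ} (hi : B i y ≠ 0) (hj : B j y ≠ 0) : i = j := by
  have h1 := B_ne hi
  have h2 := B_ne hj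
  have := xx_pos i
  have := xx_pos j
  rcases lt_trichotomy i j with h | h | h
  · have := xx_lt h; linarith
  · exact h
  · have := xx_lt h; linarith

lemma B_self (j : ℕ) : B j (xx j) = 1 := by
  unfold B
  rw [div_self (xx_pos j).ne']
  simp

lemma B_xx (i j : ℕ) : B i (xx j) = if i = j then 1 else 0 := by
  split_ifs with h
  · subst h; exact B_self i
  · by_contra h2
    exact h (B_disj h2 (by rw [B_self]; norm_num))

lemma B_zero (j : ℕ) : B j 0 = 0 := by
  by_contra h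
  have := (B_ne h).1
  have := xx_pos j
  linarith

/-- Walsh-Hadamard matrix -/
def W {m : ℕ} (x y : Fin m → Bool) : ℝ := ∏ i, if x i && y i then -1 else 1

lemma W_abs {m : ℕ} (x y : Fin m → Bool) : |W x y| = 1 := by
  unfold W
  rw [Finset.abs_prod]
  refine Finset.prod_eq_one fun i _ => ?_
  split_ifs <;> simp

lemma W_mul {m : ℕ} (x z : Fin m → Bool) :
    ∑ y, W x y * W y z = if x = z then 2 ^ m else 0 := by
  have h : ∀ y : Fin m → Bool, W x y * W y z =
      ∏ i, ((if x i && y i then -1 else 1) * (if y i && z i then (-1 : ℝ) else 1)) := by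
    intro y; unfold W; rw [Finset.prod_mul_distrib]
  simp_rw [h]
  have h2 := Finset.prod_univ_sum (fun _ : Fin m => (Finset.univ : Finset Bool))
    (fun i b => ((if x i && b then -1 else 1) * (if b && z i then (-1 : ℝ) else 1)))
  rw [Fintype.piFinset_univ] at h2
  rw [← h2]
  have h3 : ∀ i, ∑ b : Bool, ((if x i && b then -1 else 1) * (if b && z i then (-1 : ℝ) else 1))
      = if x i = z i then 2 else 0 := by
    intro i
    rw [Fintype.sum_bool]
    cases x i <;> cases z i <;> norm_num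
  simp_rw [h3]
  split_ifs with h4
  · subst h4; simp
  · obtain ⟨i, hi⟩ := Function.ne_iff.1 h4
    exact Finset.prod_eq_zero (Finset.mem_univ i) (if_neg hi)

noncomputable def ee (m : ℕ) (x : Fin m → Bool) : ℕ :=
  2 * Encodable.encode (⟨m, x⟩ : Σ m : ℕ, (Fin m → Bool))

lemma ee_inj {m : ℕ} {x y : Fin m → Bool} (h : ee m x = ee m y) : x = y := by
  unfold ee at h
  have := Encodable.encode_injective (Nat.eq_of_mul_eq_mul_left two_pos h)
  simpa using this

lemma ee_inj' {m n : ℕ} {x : Fin m → Bool} {y : Fin n → Bool} (h : ee m x = ee n y) : m = n := by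
  unfold ee at h
  have := Encodable.encode_injective (Nat.eq_of_mul_eq_mul_left two_pos h)
  exact (Sigma.mk.inj this).1

section
variable (ρ : CC) (p : ℕ → II)

noncomputable def g (j : ℕ) : CC := ⟨fun s => B j (ρ s), (B_cont j).comp ρ.continuous⟩

noncomputable def YY : Submodule ℝ CC where
  carrier := {f | (∀ J s, 2 * xx J ≤ ρ s → f s = ∑ j ∈ Finset.range J, f (p j) * B j (ρ s)) ∧
    ∀ m (x : Fin m → Bool), ∑ y, W x y * f (p (ee m y)) = √(2 ^ m) * f (p (ee m x))}
  add_mem' := by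
    rintro f g ⟨hf, hf'⟩ ⟨hg, hg'⟩
    refine ⟨fun J s hs => ?_, fun m x => ?_⟩
    · simp only [ContinuousMap.add_apply, add_mul, Finset.sum_add_distrib]
      rw [← hf J s hs, ← hg J s hs]
    · simp only [ContinuousMap.add_apply, mul_add, Finset.sum_add_distrib]
      rw [hf' m x, hg' m x]
  zero_mem' := by simp
  smul_mem' := by
    rintro c f ⟨hf, hf'⟩
    refine ⟨fun J s hs => ?_, fun m x => ?_⟩
    · simp only [ContinuousMap.smul_apply, smul_eq_mul, mul_assoc, ← Finset.mul_sum]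
      rw [← hf J s hs]
    · simp only [ContinuousMap.smul_apply, smul_eq_mul]
      simp_rw [mul_left_comm _ c, ← Finset.mul_sum]
      rw [hf' m x]

lemma mem_YY {f : CC} : f ∈ YY ρ p ↔
    (∀ J s, 2 * xx J ≤ ρ s → f s = ∑ j ∈ Finset.range J, f (p j) * B j (ρ s)) ∧
    ∀ m (x : Fin m → Bool), ∑ y, W x y * f (p (ee m y)) = √(2 ^ m) * f (p (ee m x)) := Iff.rfl

lemma YY_closed : IsClosed (YY ρ p : Set CC) := by
  have : (YY ρ p : Set CC) = (⋂ J, ⋂ s, ⋂ _ : 2 * xx J ≤ ρ s,
      {f : CC | f s = ∑ j ∈ Finset.range J, f (p j) * B j (ρ s)}) ∩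
      ⋂ m, ⋂ x : Fin m → Bool,
        {f : CC | ∑ y, W x y * f (p (ee m y)) = √(2 ^ m) * f (p (ee m x))} := by
    ext f
    simp only [SetLike.mem_coe, mem_YY, mem_inter_iff, mem_iInter, mem_setOf_eq]
  rw [this]
  refine IsClosed.inter ?_ ?_
  · refine isClosed_iInter fun J => isClosed_iInter fun s => isClosed_iInter fun _ => ?_
    exact isClosed_eq (by fun_prop) (by fun_prop)
  · refine isClosed_iInter fun J => isClosed_iInter fun s => ?_
    exact isClosed_eq (by fun_prop) (by fun_prop)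

variable {ρ p}

lemma g_p (hp : ∀ j, ρ (p j) = xx j) (i j : ℕ) : g ρ i (p j) = if i = j then 1 else 0 := by
  change B i (ρ (p j)) = _
  rw [hp, B_xx]

lemma g_first (hp : ∀ j, ρ (p j) = xx j) (i J : ℕ) (s : II) (hs : 2 * xx J ≤ ρ s) :
    g ρ i s = ∑ j ∈ Finset.range J, g ρ i (p j) * B j (ρ s) := by
  simp_rw [g_p hp]
  simp only [ite_mul, one_mul, zero_mul, Finset.sum_ite_eq, Finset.mem_range]
  split_ifs with h
  · rfl
  · change B i (ρ s) = 0
    by_contra h2
    have := (B_ne h2).2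
    have := xx_le (not_lt.1 h)
    have := xx_pos i
    linarith

lemma g_odd_mem (hp : ∀ j, ρ (p j) = xx j) (i : ℕ) : g ρ (2 * i + 1) ∈ YY ρ p := by
  refine ⟨fun J s hs => g_first hp _ J s hs, fun m x => ?_⟩
  have : ∀ y : Fin m → Bool, g ρ (2 * i + 1) (p (ee m y)) = 0 := by
    intro y
    rw [g_p hp, if_neg]
    unfold ee; omega
  simp [this]

lemma g_norm (i : ℕ) : ‖g ρ i‖ ≤ 1 := by
  refine (ContinuousMap.norm_le _ zero_le_one).2 fun s => ?_
  change |B i (ρ s)| ≤ 1
  rw [abs_of_nonneg (B_nonneg _ _)]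
  exact B_le _ _

lemma van_mem (hp : ∀ j, ρ (p j) = xx j) (f : CC) (hf : ∀ s, 0 < ρ s → f s = 0) :
    f ∈ YY ρ p := by
  have h : ∀ j, f (p j) = 0 := fun j => hf _ (by rw [hp]; exact xx_pos j)
  refine ⟨fun J s hs => ?_, fun m x => by simp [h]⟩
  have := xx_pos J
  simp [h, hf s (by linarith)]

noncomputable def G (ρ : CC) (m : ℕ) (v : (Fin m → Bool) → ℝ) : CC := ∑ y, v y • g ρ (ee m y)

lemma G_p (hp : ∀ j, ρ (p j) = xx j) (m : ℕ) (v : (Fin m → Bool) → ℝ) (x : Fin m → Bool) :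
    G ρ m v (p (ee m x)) = v x := by
  unfold G
  simp only [ContinuousMap.coe_sum, Finset.sum_apply, ContinuousMap.smul_apply, smul_eq_mul,
    g_p hp]
  rw [Finset.sum_eq_single x]
  · simp
  · intro y _ hy
    rw [if_neg (fun h => hy (ee_inj h))]; simp
  · simp

lemma G_p' (hp : ∀ j, ρ (p j) = xx j) {m n : ℕ} (h : m ≠ n) (v : (Fin m → Bool) → ℝ)
    (x : Fin n → Bool) : G ρ m v (p (ee n x)) = 0 := by
  unfold G
  simp only [ContinuousMap.coe_sum, Finset.sum_apply, ContinuousMap.smul_apply, smul_eq_mul,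
    g_p hp]
  refine Finset.sum_eq_zero fun y _ => ?_
  rw [if_neg (fun h' => h (ee_inj' h'))]; simp

lemma G_mem (hp : ∀ j, ρ (p j) = xx j) (m : ℕ) (v : (Fin m → Bool) → ℝ)
    (hv : ∀ x, ∑ y, W x y * v y = √(2 ^ m) * v x) : G ρ m v ∈ YY ρ p := by
  refine ⟨fun J s hs => ?_, fun n x => ?_⟩
  · unfold G
    simp only [ContinuousMap.coe_sum, Finset.sum_apply, ContinuousMap.smul_apply, smul_eq_mul,
      Finset.sum_mul]
    rw [Finset.sum_comm]
    refine Finset.sum_congr rfl fun y _ => ?_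
    rw [g_first hp _ J s hs, Finset.mul_sum]
    simp [mul_assoc]
  · by_cases h : m = n
    · subst h
      simp_rw [G_p hp]
      exact hv x
    · simp [G_p' hp h]

lemma G_norm (m : ℕ) (v : (Fin m → Bool) → ℝ) (hv : ∀ x, |v x| ≤ 1) : ‖G ρ m v‖ ≤ 1 := by
  refine (ContinuousMap.norm_le _ zero_le_one).2 fun s => ?_
  unfold G
  simp only [ContinuousMap.coe_sum, Finset.sum_apply, ContinuousMap.smul_apply, smul_eq_mul,
    Real.norm_eq_abs]
  by_cases h : ∃ x, g ρ (ee m x) s ≠ 0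
  · obtain ⟨x, hx⟩ := h
    rw [Finset.sum_eq_single x]
    · rw [abs_mul]
      have h1 : |g ρ (ee m x) s| ≤ 1 := ((g ρ _).norm_coe_le_norm s).trans (g_norm _)
      exact mul_le_one₀ (hv x) (abs_nonneg _) h1
    · intro y _ hy
      by_contra h2
      have h3 : g ρ (ee m y) s ≠ 0 := fun h => h2 (by rw [h, mul_zero])
      exact hy (ee_inj (B_disj h3 hx))
    · simp
  · push Not at h
    simp [h]

lemma not_compl (hp : ∀ j, ρ (p j) = xx j) (P : CC →L[ℝ] CC) (h1 : ∀ f, P f ∈ YY ρ p)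
    (h2 : ∀ f ∈ YY ρ p, P f = f) : False := by
  have key : ∀ m : ℕ, √(2 ^ m) - 1 ≤ 2 * ‖P‖ := by
    intro m
    set c : ℝ := √(2 ^ m) with hc
    have hcc : c * c = 2 ^ m := Real.mul_self_sqrt (by positivity)
    set R : (Fin m → Bool) → (Fin m → Bool) → ℝ := fun x y => P (g ρ (ee m y)) (p (ee m x))
      with hR
    have hPG : ∀ v x, P (G ρ m v) (p (ee m x)) = ∑ y, R x y * v y := by
      intro v x
      unfold G
      simp only [map_sum, map_smul, ContinuousMap.coe_sum, Finset.sum_apply,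
        ContinuousMap.smul_apply, smul_eq_mul, hR, mul_comm]
    have hA : ∀ x y, ∑ z, W x z * R z y = c * R x y := fun x y => (h1 (g ρ (ee m y))).2 m x
    have hB : ∀ z, c * R z z + ∑ y, R z y * W y z = c + W z z := by
      intro z
      have hv := G_mem hp m (fun y => (if y = z then c else 0) + W y z) (by
        intro x
        simp only [mul_add, Finset.sum_add_distrib, mul_ite, mul_zero, Finset.sum_ite_eq',
          Finset.mem_univ, if_true, W_mul, ← hc]
        split_ifs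
        · rw [hcc]; ring
        · ring)
      have h3 := hPG (fun y => (if y = z then c else 0) + W y z) z
      rw [h2 _ hv, G_p hp] at h3
      simp only [mul_add, Finset.sum_add_distrib, mul_ite, mul_zero, Finset.sum_ite_eq',
          Finset.mem_univ, if_true] at h3
      linarith
    have hC : ∀ z, ∑ y, R z y * W y z ≤ ‖P‖ := by
      intro z
      rw [← hPG]
      have h3 := G_norm (ρ := ρ) m (fun y => W y z) (fun y => (W_abs y z).le)
      have h4 := (P (G ρ m fun y => W y z)).norm_coe_le_norm (p (ee m z))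
      have h5 := P.le_opNorm (G ρ m fun y => W y z)
      have h6 := mul_le_mul_of_nonneg_left h3 (norm_nonneg P)
      have h7 := le_abs_self (P (G ρ m fun y => W y z) (p (ee m z)))
      rw [Real.norm_eq_abs] at h4
      linarith
    have hD : ∑ z, c * R z z = ∑ z, ∑ y, R z y * W y z := by
      simp_rw [← hA]
      rw [Finset.sum_comm]
      simp [mul_comm]
    have hE : ∑ z : Fin m → Bool, (c - 1) ≤ ∑ z : Fin m → Bool, 2 * ‖P‖ := by
      calc ∑ z : Fin m → Bool, (c - 1) ≤ ∑ z : Fin m → Bool, (c + W z z) := by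
            refine Finset.sum_le_sum fun z _ => ?_
            have := (abs_le.1 (W_abs z z).le).1
            linarith
        _ = ∑ z, (c * R z z + ∑ y, R z y * W y z) := by simp_rw [hB]
        _ = ∑ z, 2 * ∑ y, R z y * W y z := by
            rw [Finset.sum_add_distrib, hD, ← Finset.mul_sum]; ring
        _ ≤ _ := Finset.sum_le_sum fun z _ => by linarith [hC z]
    simp only [Finset.sum_const, nsmul_eq_mul] at hE
    refine le_of_mul_le_mul_left hE ?_
    exact_mod_cast Finset.univ_nonempty.card_pos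
  obtain ⟨m, hm⟩ := pow_unbounded_of_one_lt ((2 * ‖P‖ + 1) ^ 2) (one_lt_two (α := ℝ))
  have h3 := key m
  have h4 : 2 * ‖P‖ + 1 < √(2 ^ m) := Real.lt_sqrt_of_sq_lt hm
  linarith

lemma equi {t : II} (ht : 0 < ρ t) {ε : ℝ} (hε : 0 < ε) :
    ∀ᶠ s in nhds t, ∀ f ∈ YY ρ p, ‖f‖ ≤ 1 → |f s - f t| ≤ ε := by
  obtain ⟨J, hJ⟩ : ∃ J, 2 * xx J < ρ t := by
    obtain ⟨J, hJ⟩ := exists_pow_lt_of_lt_one (half_pos ht) (by norm_num : (1 / 2 : ℝ) < 1)
    exact ⟨J, by unfold xx; linarith⟩
  have h1 : ∀ᶠ s in nhds t, 2 * xx J < ρ s :=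
    ρ.continuous.continuousAt.eventually (lt_mem_nhds hJ)
  have hc : Continuous fun s : II => ∑ j ∈ Finset.range J, |B j (ρ s) - B j (ρ t)| := by
    refine continuous_finset_sum _ fun j _ => ?_
    exact (((B_cont j).comp ρ.continuous).sub continuous_const).abs
  have h2 : ∀ᶠ s in nhds t, ∑ j ∈ Finset.range J, |B j (ρ s) - B j (ρ t)| < ε :=
    hc.continuousAt.eventually (gt_mem_nhds (by simpa using hε))
  filter_upwards [h1, h2] with s hs1 hs2 f hf hn
  rw [hf.1 J s hs1.le, hf.1 J t hJ.le, ← Finset.sum_sub_distrib]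
  refine (Finset.abs_sum_le_sum_abs _ _).trans (le_trans (Finset.sum_le_sum fun j _ => ?_) hs2.le)
  rw [← mul_sub, abs_mul]
  have h3 : |f (p j)| ≤ 1 := (f.norm_coe_le_norm _).trans hn
  exact mul_le_of_le_one_left (abs_nonneg _) h3

lemma nonequi (hp : ∀ j, ρ (p j) = xx j) (h0 : ∀ s, 0 ≤ ρ s) {S : Set II} (hS : IsPreconnected S)
    {t u : II} (ht : t ∈ S) (hu : u ∈ S) (htu : t ≠ u) (hρ : ρ t = 0) :
    ∃ f ∈ YY ρ p, ‖f‖ ≤ 1 ∧ ∃ s ∈ S, 1 ≤ |f s - f t| := by
  by_cases h : ∃ s ∈ S, ρ s ≠ 0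
  · obtain ⟨s, hs, hs0⟩ := h
    have hs1 : 0 < ρ s := lt_of_le_of_ne (h0 s) (Ne.symm hs0)
    obtain ⟨J, hJ⟩ := exists_pow_lt_of_lt_one hs1 (by norm_num : (1 / 2 : ℝ) < 1)
    have h1 : xx (2 * J + 1) ≤ ρ s := (xx_le (by omega : J ≤ 2 * J + 1)).trans hJ.le
    have h2 := hS.intermediate_value ht hs ρ.continuous.continuousOn
      (show xx (2 * J + 1) ∈ Icc (ρ t) (ρ s) from ⟨by rw [hρ]; exact (xx_pos _).le, h1⟩)
    obtain ⟨w, hw, hw2⟩ := h2
    refine ⟨g ρ (2 * J + 1), g_odd_mem hp J, g_norm _, w, hw, ?_⟩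
    change 1 ≤ |B _ (ρ w) - B _ (ρ t)|
    rw [hw2, hρ, B_self, B_zero]; simp
  · push Not at h
    have hc : ContinuousOn (fun s : II => (s : ℝ)) S := continuous_subtype_val.continuousOn
    have hint : ∀ y : ℝ, y ∈ uIcc (t : ℝ) u → ∃ w ∈ S, (w : ℝ) = y := by
      intro y hy
      rcases le_total (t : ℝ) u with h1 | h1
      · rw [uIcc_of_le h1] at hy
        exact hS.intermediate_value ht hu hc hy
      · rw [uIcc_of_ge h1] at hy
        exact hS.intermediate_value hu ht hc hy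
    have hne : (t : ℝ) ≠ u := fun h => htu (Subtype.ext h)
    have hd : 0 < |(t : ℝ) - u| := abs_pos.2 (sub_ne_zero.2 hne)
    let f : CC := ⟨fun s => max 0 (1 - |2 * (s : ℝ) - (t + u)| / |(t : ℝ) - u|), by fun_prop⟩
    obtain ⟨w, hw, hw2⟩ := hint ((t + u) / 2) (by
      rcases le_total (t : ℝ) u with h1 | h1
      · rw [uIcc_of_le h1]; constructor <;> linarith
      · rw [uIcc_of_ge h1]; constructor <;> linarith)
    refine ⟨f, van_mem hp f fun s hs => ?_, ?_, w, hw, ?_⟩
    · by_contra h2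
      have h3 : 0 < 1 - |2 * (s : ℝ) - (t + u)| / |(t : ℝ) - u| := by
        by_contra h3
        exact h2 (max_eq_left (not_lt.1 h3))
      have h4 : |2 * (s : ℝ) - (t + u)| < |(t : ℝ) - u| := by
        rw [← div_lt_one hd]; linarith
      obtain ⟨w', hw', hw3⟩ := hint s (by
        rw [abs_lt] at h4
        rcases le_total (t : ℝ) u with h1 | h1
        · rw [uIcc_of_le h1]
          rw [abs_of_nonpos (by linarith)] at h4
          constructor <;> linarith [h4.1, h4.2]
        · rw [uIcc_of_ge h1]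
          rw [abs_of_nonneg (by linarith)] at h4
          constructor <;> linarith [h4.1, h4.2])
      have := h w' hw'
      rw [Subtype.ext hw3] at this
      linarith
    · refine (ContinuousMap.norm_le _ zero_le_one).2 fun s => ?_
      change |max 0 (1 - |2 * (s : ℝ) - (t + u)| / |(t : ℝ) - u|)| ≤ 1
      rw [abs_of_nonneg (le_max_left _ _)]
      have : 0 ≤ |2 * (s : ℝ) - (t + u)| / |(t : ℝ) - u| := by positivity
      exact max_le zero_le_one (by linarith)
    · change 1 ≤ |max 0 (1 - |2 * (w : ℝ) - (t + u)| / |(t : ℝ) - u|) -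
        max 0 (1 - |2 * (t : ℝ) - (t + u)| / |(t : ℝ) - u|)|
      have e1 : 2 * (w : ℝ) - (t + u) = 0 := by rw [hw2]; ring
      have e2 : 2 * (t : ℝ) - (t + u) = t - u := by ring
      rw [e1, e2, div_self hd.ne']
      simp
end

end Pool.Agent.H.MP_8e06fd_an
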