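import Mathlib
import Pool.Agent.H.MP_8e06fd_an.A

namespace Pool.Agent.H.MP_8e06fd_an
open Set Filter Topology

lemma osc_bdd (f : CC) (t : II) (d : ℝ) :
    ∀ r ∈ {r : ℝ | ∃ s u : II, |(s : ℝ) - t| ≤ d ∧ |(u : ℝ) - t| ≤ d ∧ r = |f s - f u|},
      r ≤ 2 * ‖f‖ := by
  rintro r ⟨s, u, -, -, rfl⟩
  have h1 : |f s| ≤ ‖f‖ := f.norm_coe_le_norm s
  have h2 : |f u| ≤ ‖f‖ := f.norm_coe_le_norm u
  have := abs_sub (f s) (f u)
  linarith

lemma gamma_pos_iff (X : Submodule ℝ CC) (t : II) : 0 < Gamma X t ↔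
    ¬ ∀ ε > 0, ∀ᶠ s in 𝓝 t, ∀ f ∈ X, ‖f‖ ≤ 1 → |f s - f t| ≤ ε := by
  constructor
  · intro h H
    refine absurd h (not_lt.2 (Real.sSup_nonpos ?_))
    rintro a ⟨-, ha⟩
    by_contra h1
    have h2 : 0 < a := not_le.1 h1
    obtain ⟨d, hd, hd2⟩ := Metric.eventually_nhds_iff.1 (H (a / 2) (half_pos h2))
    obtain ⟨f, hf, hf1, hf2⟩ := ha (d / 2) (half_pos hd)
    refine absurd hf2 (not_lt.2 (Real.sSup_le ?_ h2.le))
    rintro r ⟨s, u, hs, hu, rfl⟩
    have h3 := hd2 (y := s) (by rw [Subtype.dist_eq, Real.dist_eq]; linarith) f hf hf1.le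
    have h4 := hd2 (y := u) (by rw [Subtype.dist_eq, Real.dist_eq]; linarith) f hf hf1.le
    rw [abs_le] at h3 h4 ⊢
    constructor <;> linarith [h3.1, h3.2, h4.1, h4.2]
  · intro H
    push Not at H
    obtain ⟨ε, hε, H⟩ := H
    refine lt_of_lt_of_le hε (le_csSup ⟨2, ?_⟩ ⟨hε.le, fun d hd => ?_⟩)
    · rintro a ⟨-, ha⟩
      obtain ⟨f, -, hf1, hf2⟩ := ha 1 one_pos
      have : osc f t 1 ≤ 2 * ‖f‖ := Real.sSup_le (osc_bdd f t 1) (by positivity)
      rw [hf1] at this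
      linarith
    · obtain ⟨s, ⟨f, hf, hf1, hf2⟩, hs⟩ :=
        (H.and_eventually (Metric.ball_mem_nhds t hd)).exists
      have hs' : |(s : ℝ) - t| < d := by
        have := Metric.mem_ball.1 hs
        rwa [Subtype.dist_eq, Real.dist_eq] at this
      have hf0 : f ≠ 0 := by
        rintro rfl
        simp at hf2
        linarith
      have hn : 0 < ‖f‖ := norm_pos_iff.2 hf0
      refine ⟨‖f‖⁻¹ • f, X.smul_mem _ hf, by rw [norm_smul, norm_inv, norm_norm, inv_mul_cancel₀ hn.ne'], ?_⟩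
      refine lt_of_lt_of_le ?_ (le_csSup ⟨_, osc_bdd _ t d⟩ ⟨s, t, hs'.le, by simp [hd.le], rfl⟩)
      simp only [ContinuousMap.smul_apply, smul_eq_mul, ← mul_sub, abs_mul, abs_inv, abs_norm]
      have : 1 ≤ ‖f‖⁻¹ := (one_le_inv₀ hn).2 hf1
      nlinarith

def EQ (Y : Submodule ℝ CC) (S : CC → CC) (t : II) (a : ℝ) : Prop :=
  ∀ᶠ s in 𝓝 t, ∀ f ∈ Y, ‖f‖ ≤ 1 → |S f s - S f t| ≤ a

lemma EQ.add {Y S S' t a a'} (h : EQ Y S t a) (h' : EQ Y S' t a') :
    EQ Y (fun f => S f + S' f) t (a + a') := by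
  filter_upwards [h, h'] with s hs hs' f hf hn
  have h1 := hs f hf hn
  have h2 := hs' f hf hn
  simp only [ContinuousMap.add_apply]
  rw [abs_le] at h1 h2 ⊢
  constructor <;> linarith [h1.1, h1.2, h2.1, h2.2]

lemma EQ.smul {Y S t a} (h : EQ Y S t a) (c : ℝ) : EQ Y (fun f => c • S f) t (|c| * a) := by
  filter_upwards [h] with s hs f hf hn
  simp only [ContinuousMap.smul_apply, smul_eq_mul, ← mul_sub, abs_mul]
  exact mul_le_mul_of_nonneg_left (hs f hf hn) (abs_nonneg _)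

lemma EQ.mono {Y S t a a'} (h : EQ Y S t a) (ha : a ≤ a') : EQ Y S t a' := by
  filter_upwards [h] with s hs f hf hn using (hs f hf hn).trans ha

lemma EQ_norm (Y) (S : CC → CC) (t) {c : ℝ} (hc : 0 ≤ c) (h : ∀ f, ‖S f‖ ≤ c * ‖f‖) :
    EQ Y S t (2 * c) := by
  refine Eventually.of_forall fun s f _ hn => ?_
  have h1 : |S f s| ≤ ‖S f‖ := (S f).norm_coe_le_norm s
  have h2 : |S f t| ≤ ‖S f‖ := (S f).norm_coe_le_norm t
  have h3 := h f
  have h4 := mul_le_mul_of_nonneg_left hn hc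
  have := abs_sub (S f s) (S f t)
  linarith

def EQ0 (Y : Submodule ℝ CC) (S : CC → CC) (t : II) : Prop := ∀ ε > 0, EQ Y S t ε

lemma EQ0.add {Y S S' t} (h : EQ0 Y S t) (h' : EQ0 Y S' t) : EQ0 Y (fun f => S f + S' f) t :=
  fun ε hε => ((h _ (half_pos hε)).add (h' _ (half_pos hε))).mono (by linarith)

lemma EQ0.smul {Y S t} (h : EQ0 Y S t) (c : ℝ) : EQ0 Y (fun f => c • S f) t := fun ε hε => by
  have h1 : 0 < |c| + 1 := by positivity
  refine ((h (ε / (|c| + 1)) (by positivity)).smul c).mono ?_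
  rw [mul_div_assoc', div_le_iff₀ h1]
  nlinarith

lemma EQ0_sum {Y t} (S : ℕ → CC → CC) (n : ℕ) (h : ∀ k < n, EQ0 Y (S k) t) :
    EQ0 Y (fun f => ∑ k ∈ Finset.range n, S k f) t := by
  induction n with
  | zero => intro ε hε; exact (EQ_norm _ _ _ le_rfl (by simp)).mono (by simp [hε.le])
  | succ n ih =>
    simp_rw [Finset.sum_range_succ]
    exact (ih fun k hk => h k (by omega)).add (h n (by omega))

lemma neumann {E : Type*} [NormedAddCommGroup E] [NormedSpace ℝ E] [CompleteSpace E]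
    (C : ℕ → E →L[ℝ] E) (hC : ∀ k f, ‖C k f‖ ≤ ‖f‖) (h0 : ∀ f, C 0 f = f) :
    ∃ T V : E →L[ℝ] E, (∀ f, V (T f) = f) ∧ (∀ f, T (V f) = f) ∧
      (∀ f, ‖f‖ ≤ 2 * ‖T f‖ ∧ ‖T f‖ ≤ 2 * ‖f‖) ∧
      ∀ n f, ‖(∑ k ∈ Finset.range n, (1 / 8 : ℝ) ^ k • C k f) - T f‖ ≤
        (8 / 7 * (1 / 8) ^ n) * ‖f‖ := by
  set S : ℕ → E →L[ℝ] E := fun k => (1 / 8 : ℝ) ^ k • C k with hS
  have hSn : ∀ k, ‖S k‖ ≤ 1 * (1 / 8) ^ k := by
    intro k
    simp only [hS]
    rw [norm_smul, Real.norm_eq_abs, abs_of_pos (by positivity), one_mul]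
    exact mul_le_of_le_one_right (by positivity)
      (ContinuousLinearMap.opNorm_le_bound _ zero_le_one fun f => by rw [one_mul]; exact hC k f)
  have hsum : Summable S := Summable.of_norm_bounded
    ((summable_geometric_of_lt_one (by norm_num) (by norm_num : (1 / 8 : ℝ) < 1)).mul_left 1) hSn
  set T := ∑' k, S k with hT
  have htail : ∀ n, ‖(∑ k ∈ Finset.range n, S k) - T‖ ≤ 1 * (1 / 8) ^ n / (1 - 1 / 8) := fun n =>
    norm_sub_le_of_geometric_bound_of_hasSum (by norm_num) hSn hsum.hasSum n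
  have h1T : ‖1 - T‖ ≤ 1 / 7 := by
    have := htail 1
    simp only [Finset.sum_range_one, hS, pow_zero, one_smul] at this
    have e : C 0 = 1 := by ext f; exact h0 f
    rw [e] at this
    linarith
  let U : (E →L[ℝ] E)ˣ := Units.oneSub (1 - T) (by linarith)
  have hU : (U : E →L[ℝ] E) = T := by simp [U]
  let V : E →L[ℝ] E := ↑U⁻¹
  refine ⟨T, V, fun f => ?_, fun f => ?_, fun f => ?_, fun n f => ?_⟩
  · have : V * T = 1 := by rw [← hU]; exact U.inv_mul
    exact congrArg (fun A : E →L[ℝ] E => A f) this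
  · have : T * V = 1 := by rw [← hU]; exact U.mul_inv
    exact congrArg (fun A : E →L[ℝ] E => A f) this
  · have h1 := (1 - T).le_opNorm f
    have h2 := mul_le_mul_of_nonneg_right h1T (norm_nonneg f)
    have h3 : (1 - T) f = f - T f := rfl
    rw [h3] at h1
    have h4 := norm_sub_norm_le f (T f)
    have h5 := norm_sub_norm_le (T f) f
    rw [norm_sub_rev] at h5
    have := norm_nonneg f
    have := norm_nonneg (T f)
    constructor <;> linarith
  · have h1 := ((∑ k ∈ Finset.range n, S k) - T).le_opNorm f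
    have h2 := mul_le_mul_of_nonneg_right (htail n) (norm_nonneg f)
    have h3 : ((∑ k ∈ Finset.range n, S k) - T) f =
        (∑ k ∈ Finset.range n, (1 / 8 : ℝ) ^ k • C k f) - T f := by
      simp [hS]
    rw [h3] at h1
    refine h1.trans (h2.trans (le_of_eq ?_))
    ring

noncomputable def CT (θ : C(II, II)) : CC →L[ℝ] CC := ContinuousMap.compCLM ℝ ℝ θ

lemma CT_apply (θ : C(II, II)) (f : CC) (s : II) : CT θ f s = f (θ s) := rfl

lemma CT_norm (θ : C(II, II)) (f : CC) : ‖CT θ f‖ ≤ ‖f‖ :=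
  (ContinuousMap.norm_le _ (norm_nonneg f)).2 fun _ => f.norm_coe_le_norm _

section
variable {ρ : CC} {p : ℕ → II}

lemma good (h0 : ∀ s, 0 ≤ ρ s) (θ : C(II, II)) (t : II)
    (h : ¬ (ρ (θ t) = 0 ∧ ¬ ∀ᶠ s in 𝓝 t, θ s = θ t)) : EQ0 (YY ρ p) (CT θ) t := by
  intro ε hε
  by_cases h1 : ρ (θ t) = 0
  · have h2 : ∀ᶠ s in 𝓝 t, θ s = θ t := by
      by_contra h2; exact h ⟨h1, h2⟩
    filter_upwards [h2] with s hs f _ _
    simp [CT_apply, hs, hε.le]
  · exact θ.continuous.continuousAt.eventually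
      (equi (p := p) (lt_of_le_of_ne (h0 _) (Ne.symm h1)) hε)

lemma bad (hp : ∀ j, ρ (p j) = xx j) (h0 : ∀ s, 0 ≤ ρ s) (θ : C(II, II)) (t : II)
    (h : ρ (θ t) = 0 ∧ ¬ ∀ᶠ s in 𝓝 t, θ s = θ t) {a : ℝ} (ha : a < 1) :
    ¬ EQ (YY ρ p) (CT θ) t a := by
  intro H
  obtain ⟨d, hd, hd2⟩ := Metric.eventually_nhds_iff.1 H
  have hc : IsPreconnected (Metric.ball t d) := by
    refine OrdConnected.isPreconnected ⟨fun x hx y hy z hz => ?_⟩
    simp only [Metric.mem_ball, Subtype.dist_eq, Real.dist_eq, abs_lt] at hx hy ⊢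
    have h1 : (x : ℝ) ≤ z := hz.1
    have h2 : (z : ℝ) ≤ y := hz.2
    constructor <;> linarith [hx.1, hy.2]
  obtain ⟨u, hu, hu2⟩ := ((not_eventually.1 h.2).and_eventually (Metric.ball_mem_nhds t hd)).exists
  obtain ⟨f, hf, hn, s, ⟨w, hw, rfl⟩, hs⟩ := nonequi hp h0 (hc.image θ θ.continuous.continuousOn)
    (mem_image_of_mem θ (Metric.mem_ball_self hd)) (mem_image_of_mem θ hu2) (Ne.symm hu) h.1
  have := hd2 hw f hf hn
  simp only [CT_apply] at this
  linarith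

lemma mainB (hp : ∀ j, ρ (p j) = xx j) (h0 : ∀ s, 0 ≤ ρ s) (θ : ℕ → C(II, II))
    (hθ : θ 0 = ContinuousMap.id _) (M : Set II) (hoff : ∀ k t, t ∉ M → ρ (θ k t) ≠ 0)
    (hon : ∀ t ∈ M, ∃ k, ρ (θ k t) = 0 ∧ ¬ ∀ᶠ s in 𝓝 t, θ k s = θ k t) :
    ∃ X : Submodule ℝ CC, IsClosed (X : Set CC) ∧
      (¬ ∃ P : CC →L[ℝ] CC, (∀ f, P f ∈ X) ∧ ∀ f ∈ X, P f = f) ∧ Omega X = M := by
  obtain ⟨T, V, hVT, hTV, hlow, htail⟩ := neumann (E := CC) (fun k => CT (θ k))
    (fun k f => CT_norm _ f) (fun f => by rw [hθ]; rfl)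
  set S : ℕ → CC → CC := fun k f => (1 / 8 : ℝ) ^ k • CT (θ k) f with hS
  let X : Submodule ℝ CC := (YY ρ p).comap V.toLinearMap
  have hX : ∀ f, f ∈ X ↔ V f ∈ YY ρ p := fun f => Iff.rfl
  refine ⟨X, (YY_closed ρ p).preimage V.continuous, ?_, ?_⟩
  · rintro ⟨P, hP1, hP2⟩
    refine not_compl hp (V.comp (P.comp T)) (fun f => hP1 _) fun f hf => ?_
    change V (P (T f)) = f
    rw [hP2 _ (by rw [hX, hVT]; exact hf), hVT]
  · have key : ∀ t, (∀ ε > 0, ∀ᶠ s in 𝓝 t, ∀ f ∈ X, ‖f‖ ≤ 1 → |f s - f t| ≤ ε) ↔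
        EQ0 (YY ρ p) T t := by
      intro t
      constructor
      · intro H ε hε
        filter_upwards [H (ε / 2) (half_pos hε)] with s hs f hf hn
        have h1 := hs ((1 / 2 : ℝ) • T f) (X.smul_mem _ (by rw [hX, hVT]; exact hf)) (by
          rw [norm_smul, Real.norm_eq_abs, abs_of_pos (by norm_num)]
          linarith [(hlow f).2])
        simp only [ContinuousMap.smul_apply, smul_eq_mul, ← mul_sub, abs_mul] at h1
        rw [abs_of_pos (by norm_num : (0 : ℝ) < 1 / 2)] at h1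
        linarith
      · intro H ε hε
        filter_upwards [H (ε / 2) (half_pos hε)] with s hs f hf hn
        have h1 := hs ((1 / 2 : ℝ) • V f) ((YY ρ p).smul_mem _ hf) (by
          rw [norm_smul, Real.norm_eq_abs, abs_of_pos (by norm_num)]
          have := (hlow (V f)).1
          rw [hTV] at this
          linarith)
        simp only [map_smul, hTV, ContinuousMap.smul_apply, smul_eq_mul, ← mul_sub, abs_mul] at h1
        rw [abs_of_pos (by norm_num : (0 : ℝ) < 1 / 2)] at h1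
        linarith
    ext t
    change 0 < Gamma X t ↔ _
    rw [gamma_pos_iff, key]
    constructor
    · intro H
      by_contra ht
      refine H fun ε hε => ?_
      obtain ⟨n, hn⟩ := exists_pow_lt_of_lt_one (show 0 < ε / 8 by positivity)
        (by norm_num : (1 / 8 : ℝ) < 1)
      have h1 := EQ0_sum (Y := YY ρ p) (t := t) S n fun k _ =>
        (good h0 (θ k) t fun h => hoff k t ht h.1).smul _
      have h2 := (h1 _ (half_pos hε)).add (EQ_norm _ (fun f => T f - ∑ k ∈ Finset.range n, S k f) t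
        (c := 8 / 7 * (1 / 8) ^ n) (by positivity) fun f => by
          rw [norm_sub_rev]; exact htail n f)
      simp only [add_sub_cancel] at h2
      refine h2.mono ?_
      linarith
    · intro ht H
      classical
      have hex := hon t ht
      set n := Nat.find hex
      have h1 := EQ0_sum (Y := YY ρ p) (t := t) S n fun k hk =>
        (good h0 (θ k) t (Nat.find_min hex hk)).smul _
      have hpos : (0 : ℝ) < (1 / 8) ^ n := by positivity
      have h2 := (((H.add (h1.smul (-1))) ((1 / 8) ^ n / 2) (half_pos hpos)).add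
        (EQ_norm _ (fun f => ∑ k ∈ Finset.range (n + 1), S k f - T f) t
          (c := 8 / 7 * (1 / 8) ^ (n + 1)) (by positivity) (htail (n + 1)))).smul
          ((1 / 8 : ℝ) ^ n)⁻¹
      have e : (fun f => ((1 / 8 : ℝ) ^ n)⁻¹ • (T f + (-1 : ℝ) • ∑ k ∈ Finset.range n, S k f +
          (∑ k ∈ Finset.range (n + 1), S k f - T f))) = CT (θ n) := by
        funext f
        rw [Finset.sum_range_succ, neg_one_smul]
        have : T f + -∑ k ∈ Finset.range n, S k f + (∑ k ∈ Finset.range n, S k f + S n f - T f)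
            = S n f := by
          abel
        rw [this]
        simp only [hS]
        rw [smul_smul, inv_mul_cancel₀ hpos.ne', one_smul]
      rw [e] at h2
      refine bad hp h0 (θ n) t (Nat.find_spec hex) ?_ h2
      rw [abs_of_pos (inv_pos.2 hpos), inv_mul_lt_iff₀ hpos, pow_succ]
      linarith
end

end Pool.Agent.H.MP_8e06fd_an
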